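import Pool.Agent.H9.KA.Stmts

/-!
# Types: the violation is affine in the law
-/

set_option autoImplicit false

namespace Pool.KA

open Finset Real
open Pool.Agent.H49.Ent Pool.Agent.H32.Dense Pool.STK

/-- Conditioning on one more variable is an average over its values. -/
lemma tya_CH_sum {Ω S T κ : Type} [Fintype Ω] [Fintype κ] {p : Ω → ℝ} (hp : ∀ ω, 0 ≤ p ω)
    (X : Ω → S) (Z : Ω → T) (A : Ω → κ) :
    CH p X (fun ω => (A ω, Z ω)) = ∑ a, law p A a * CH (cond p A a) X Z := by
  classical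
  have h1 : CH p X (fun ω => (A ω, Z ω)) = CH p (fun ω => (X ω, Z ω)) A - CH p Z A := by
    have h2 := CH_chain hp X Z A
    have h3 : CH p X (fun ω => (A ω, Z ω)) = CH p X (fun ω => (Z ω, A ω)) :=
      CH_congr hp (fun ω ω' _ _ h => (Prod.ext_iff.mp h).1)
        (fun ω ω' _ _ h => (Prod.ext_iff.mp h).1)
        (fun ω ω' _ _ h => Prod.ext (Prod.ext_iff.mp h).2 (Prod.ext_iff.mp h).1)
        (fun ω ω' _ _ h => Prod.ext (Prod.ext_iff.mp h).2 (Prod.ext_iff.mp h).1)
    rw [h3, h2]
    ring
  have h4 : ∀ {U : Type} (Y : Ω → U), CH p Y A = ∑ a, law p A a * H (cond p A a) Y := by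
    intro U Y
    rw [CH_eq_sum hp]
    refine Finset.sum_subset (Finset.subset_univ _) fun a _ ha => ?_
    rw [law_eq_zero_of_notMem p A ha, zero_mul]
  rw [h1, h4, h4, ← Finset.sum_sub_distrib]
  refine Finset.sum_congr rfl fun a _ => ?_
  unfold CH
  ring

lemma tya_law_sum {Ω κ : Type} [Fintype Ω] [Fintype κ] (p : Ω → ℝ) (A : Ω → κ) :
    ∑ a, law p A a = ∑ ω, p ω := by
  classical
  rw [← sum_law p A]
  symm
  exact Finset.sum_subset (Finset.subset_univ _) fun a _ ha => law_eq_zero_of_notMem p A ha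

/-- One more variable in the condition costs at most the logarithm of the number of values. -/
lemma tya_CH_le {Ω S T κ : Type} [Fintype Ω] [Fintype κ] {p : Ω → ℝ} (hp : IsLaw p)
    (X : Ω → S) (Z : Ω → T) (A : Ω → κ) :
    CH p X (fun ω => (A ω, Z ω)) ≤ CH p X Z ∧
      CH p X Z ≤ CH p X (fun ω => (A ω, Z ω)) + Real.log (Fintype.card κ) := by
  classical
  refine ⟨CH_mono_cond hp.nonneg (fun ω ω' _ _ h => (Prod.ext_iff.mp h).2), ?_⟩
  have h1 := CH_le_add hp.nonneg X A Z
  have h2 := CH_le_card hp.nonneg hp.sum_one A Z (fun _ => univ) (fun _ _ => mem_univ _)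
  rw [Ex_const hp.sum_one] at h2
  simp only [Finset.card_univ] at h2
  linarith

open Classical in
theorem tya_thm : TYAStmt := by
  intro m J F κ _ A e he
  have hp := F.isLaw.nonneg
  have hlaw0 : ∀ a, 0 ≤ law F.p A a := fun a => law_nonneg hp A a
  have hlog : 0 ≤ Real.log (Fintype.card κ) := Real.log_natCast_nonneg _
  have hlaw1 : ∑ a, law F.p A a = 1 := by rw [tya_law_sum, F.isLaw.sum_one]
  refine ⟨fun a ha => ⟨cond_nonneg hp A a, sum_cond F.p A ha.ne'⟩, fun h => ⟨fun j => ?_, ?_⟩⟩
  · have h1 : (∑ a, (if ha : 0 < law F.p A a then law F.p A a * (F.res A a (h a ha)).V j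
        else 0)) = CH F.p (F.D J) (fun ω => (A ω, F.Z ω)) - CH F.p (F.X j) (fun ω => (A ω, F.W ω)) -
          m * (((J : ℝ) - j) * Real.log 2) := by
      rw [tya_CH_sum hp, tya_CH_sum hp]
      have e1 : (m : ℝ) * (((J : ℝ) - j) * Real.log 2) =
          ∑ a, law F.p A a * (m * (((J : ℝ) - j) * Real.log 2)) := by
        rw [← Finset.sum_mul, hlaw1, one_mul]
      rw [e1, ← Finset.sum_sub_distrib, ← Finset.sum_sub_distrib]
      refine Finset.sum_congr rfl fun a _ => ?_
      split_ifs with ha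
      · unfold Fam.V
        have e2 : CH (F.res A a (h a ha)).p ((F.res A a (h a ha)).D J) (F.res A a (h a ha)).Z =
          CH (cond F.p A a) (F.D J) F.Z := rfl
        have e3 : CH (F.res A a (h a ha)).p ((F.res A a (h a ha)).X j) (F.res A a (h a ha)).W =
          CH (cond F.p A a) (F.X j) F.W := rfl
        rw [e2, e3]
        ring
      · have : law F.p A a = 0 := le_antisymm (not_lt.mp ha) (hlaw0 a)
        rw [this]
        ring
    rw [h1]
    have h2 := tya_CH_le F.isLaw (F.D J) F.Z A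
    have h3 := tya_CH_le F.isLaw (F.X j) F.W A
    unfold Fam.V
    rw [abs_le]
    constructor <;> linarith [h2.1, h2.2, h3.1, h3.2]
  · intro a ha
    unfold Fam.Tm at he ⊢
    have h2 := tya_CH_le F.isLaw F.T (fun ω => (F.l ω, F.Z ω)) A
    rw [tya_CH_sum hp] at h2
    have h3 : ∀ b, law F.p A b * CH (cond F.p A b) F.T (fun ω => (F.l ω, F.Z ω)) ≤
        law F.p A b * (J * Real.log 2) := by
      intro b
      rcases (hlaw0 b).eq_or_lt with hb | hb
      · rw [← hb, zero_mul, zero_mul]
      · refine mul_le_mul_of_nonneg_left ?_ hb.le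
        have h4 := CH_le_card (cond_nonneg hp A b) (sum_cond F.p A hb.ne') F.T
          (fun ω => (F.l ω, F.Z ω)) (fun _ => Finset.range (2 ^ J))
          (fun ω _ => Finset.mem_range.mpr (F.tim ω))
        rw [Ex_const (sum_cond F.p A hb.ne')] at h4
        rw [Finset.card_range] at h4
        push_cast at h4
        rw [Real.log_pow] at h4
        exact h4
    have h5 : ∑ b, law F.p A b * CH (cond F.p A b) F.T (fun ω => (F.l ω, F.Z ω)) ≤
        law F.p A a * CH (cond F.p A a) F.T (fun ω => (F.l ω, F.Z ω)) +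
          (1 - law F.p A a) * (J * Real.log 2) := by
      rw [← Finset.add_sum_erase _ _ (Finset.mem_univ a)]
      have h6 : ∑ b ∈ univ.erase a, law F.p A b * CH (cond F.p A b) F.T
          (fun ω => (F.l ω, F.Z ω)) ≤ ∑ b ∈ univ.erase a, law F.p A b * (J * Real.log 2) :=
        Finset.sum_le_sum fun b _ => h3 b
      have h7 : ∑ b ∈ univ.erase a, law F.p A b * (J * Real.log 2) =
          (1 - law F.p A a) * (J * Real.log 2) := by
        rw [← Finset.sum_mul, ← hlaw1, ← Finset.add_sum_erase _ _ (Finset.mem_univ a)]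
        ring
      linarith
    have e4 : CH (F.res A a (h a ha)).p (F.res A a (h a ha)).T
        (fun ω => ((F.res A a (h a ha)).l ω, (F.res A a (h a ha)).Z ω)) =
        CH (cond F.p A a) F.T (fun ω => (F.l ω, F.Z ω)) := rfl
    rw [e4, sub_le_comm, le_div_iff₀ ha]
    nlinarith [h2.2, h5, he]

end Pool.KA
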