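import Pool.Agent.H9.KA.Stmts

/-!
# Existence of near-maximisers
-/

set_option autoImplicit false

namespace Pool.KA

open Finset Real
open Pool.Agent.H49.Ent Pool.Agent.H32.Dense Pool.STK

lemma exi_inf {P : ℝ → Prop} (hup : ∀ a b, a ≤ b → P a → P b)
    (hcl : ∀ a, (∀ b > a, P b) → P a) (hne : ∃ b, P b) {a₀ : ℝ} (ha : ¬ P a₀) :
    ∃ r, a₀ < r ∧ P r ∧ ∀ s < r, ¬ P s := by
  have hb : BddBelow {b | P b} := ⟨a₀, fun b hb => by
    by_contra hc
    exact ha (hup b a₀ (not_le.mp hc).le hb)⟩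
  have hne' : {b | P b}.Nonempty := hne
  have hr : P (sInf {b | P b}) := by
    refine hcl _ fun b hb' => ?_
    obtain ⟨s, hs, hsb⟩ := exists_lt_of_csInf_lt hne' hb'
    exact hup s b hsb.le hs
  refine ⟨sInf {b | P b}, ?_, hr, fun s hs hPs => ?_⟩
  · by_contra hc
    exact ha (hup _ _ (not_lt.mp hc) hr)
  · exact absurd (csInf_le hb hPs) (not_le.mpr hs)

lemma exi_arith {J k r μ lam δ l η VJ Vw : ℝ} (hJ : 0 < J) (hk0 : 0 ≤ k) (hkl : k ≤ l * J)
    (hlμ : l * μ ≤ 1) (hμ : 0 ≤ μ) (hr : 0 < r) (hη : 0 < η) (hδ : δ = (1 + μ) * r - lam)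
    (hl : μ * r * l ≤ δ / 2) (hVJ : (r - η) * J ≤ VJ)
    (hVw : Vw ≤ (r + η) * (J - k) + 2 * η * J)
    (hG : VJ - Vw + k * (μ * Vw / J - lam) ≤ η * J) : k * δ / 2 ≤ 5 * η * J := by
  obtain ⟨q, hq⟩ : ∃ q, q = k / J := ⟨_, rfl⟩
  have hk : k = q * J := by rw [hq]; field_simp
  have hq0 : 0 ≤ q := by rw [hq]; positivity
  have hql : q ≤ l := by rw [hq, div_le_iff₀ hJ]; exact hkl
  have h1 : 0 ≤ 1 - q * μ := by nlinarith only [hJ, hlμ, hkl, hμ, hk]
  have h1' : 1 - q * μ ≤ 1 := by nlinarith only [hJ, hk0, hμ, hk]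
  have e1 : VJ - Vw + k * (μ * Vw / J - lam) = VJ - (1 - q * μ) * Vw - k * lam := by
    rw [hk]; field_simp; ring
  rw [e1] at hG
  have h2 : Vw ≤ r * (J - k) + 3 * η * J := by nlinarith only [hVw, hk0, hη]
  have h3 : (1 - q * μ) * Vw ≤ (1 - q * μ) * (r * (J - k)) + 3 * η * J := by
    have := mul_le_mul_of_nonneg_left h2 h1
    have h4 : (1 - q * μ) * (3 * η * J) ≤ 1 * (3 * η * J) :=
      mul_le_mul_of_nonneg_right h1' (by positivity)
    nlinarith only [this, h4]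
  have h5 : (1 - q * μ) * (r * (J - k)) = r * J - q * J * (r * (1 + μ) - r * μ * q) := by
    rw [hk]; ring
  have h6 : μ * r * q ≤ δ / 2 := by
    have : μ * r * q ≤ μ * r * l := mul_le_mul_of_nonneg_left hql (by positivity)
    linarith only [hl, this]
  have h7 : q * J * (δ / 2) ≤ q * J * (δ - r * μ * q) :=
    mul_le_mul_of_nonneg_left (by linarith only [h6]) (by positivity)
  have e2 : k * lam = q * J * lam := by rw [hk]
  have e3 : k * δ = q * J * δ := by rw [hk]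
  have e4 : q * J * (δ - r * μ * q) =
      q * J * (r * (1 + μ) - r * μ * q) - q * J * lam := by rw [hδ]; ring
  linarith only [hVJ, hG, h3, h5, h7, e2, e3, e4]

theorem exi_thm (hTRC : TRCStmt) (hGRO : GROStmt) : EXIStmt := by
  intro m hKP
  obtain ⟨C1, hC1, hT⟩ := hTRC m
  obtain ⟨C2, hC2, hG⟩ := hGRO m
  have hVup : ∀ a b, a ≤ b → VB m a → VB m b := by
    intro a b hab h η hη
    obtain ⟨θ, hθ, J₀, h1⟩ := h η hη
    refine ⟨θ, hθ, J₀, fun J hJ F hF => (h1 J hJ F hF).trans ?_⟩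
    have : (0 : ℝ) ≤ J := Nat.cast_nonneg J
    nlinarith only [hab]
  have hVcl : ∀ a, (∀ b > a, VB m b) → VB m a := by
    intro a h η hη
    obtain ⟨θ, hθ, J₀, h1⟩ := h (a + η / 2) (by linarith) (η / 2) (by linarith)
    exact ⟨θ, hθ, J₀, fun J hJ F hF => (h1 J hJ F hF).trans (le_of_eq (by ring))⟩
  have hVne : ∃ b, VB m b := by
    refine ⟨m * Real.log 2, ?_⟩
    intro η hη
    obtain ⟨J₀, hJ₀⟩ := exists_nat_ge (C2 / η)
    refine ⟨1, one_pos, J₀, fun J hJ F _ => ?_⟩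
    have h1 := (hG J F).2.2 J
    have h2 : C2 ≤ η * J := by
      have h3 : (J₀ : ℝ) ≤ J := by exact_mod_cast hJ
      have h4 : C2 / η ≤ J := hJ₀.trans h3
      rwa [div_le_iff₀ hη, mul_comm] at h4
    nlinarith only [h1, h2]
  have hV0 : ¬ VB m 0 := fun h => hKP (by
    intro ε hε
    obtain ⟨θ, hθ, J₀, h1⟩ := h ε hε
    exact ⟨θ, hθ, J₀, fun J hJ F hF => by simpa using h1 J hJ F hF⟩)
  obtain ⟨r, hr, hVr, hVs⟩ := exi_inf hVup hVcl hVne hV0
  obtain ⟨μ, hμd⟩ : ∃ μ, μ = mu m r := ⟨_, rfl⟩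
  have hlog : 0 < Real.log 2 := Real.log_pos (by norm_num)
  have hμ : 0 ≤ μ := by
    rw [hμd]; unfold mu; positivity
  have hUup : ∀ a b, a ≤ b → UB m μ a 0 → UB m μ b 0 := by
    intro a b hab h η hη
    obtain ⟨θ, hθ, J₀, h1⟩ := h η hη
    refine ⟨θ, hθ, J₀, fun J hJ F hF w hw => (h1 J hJ F hF w hw).trans' ?_⟩
    have h2 : (w : ℝ) ≤ J := by exact_mod_cast hw
    unfold Fam.G
    nlinarith only [hab, h2]
  have hUcl : ∀ a, (∀ b > a, UB m μ b 0) → UB m μ a 0 := by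
    intro a h η hη
    obtain ⟨θ, hθ, J₀, h1⟩ := h (a + η / 2) (by linarith) (η / 2) (by linarith)
    refine ⟨θ, hθ, J₀, fun J hJ F hF w hw => ?_⟩
    have h3 := h1 J hJ F hF w hw
    have h2 : (w : ℝ) ≤ J := by exact_mod_cast hw
    have h4 : (0 : ℝ) ≤ w := Nat.cast_nonneg w
    unfold Fam.G at h3 ⊢
    nlinarith only [h3, hη]
  have hUne : ∃ b, UB m μ b 0 := by
    refine ⟨(1 + μ) * (m * Real.log 2), ?_⟩
    intro η hη
    obtain ⟨J₀, hJ₀⟩ := exists_nat_ge (μ * C2 / η)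
    refine ⟨1, one_pos, J₀ + 1, fun J hJ F _ w hw => ?_⟩
    have hJ1 : (1 : ℝ) ≤ J := by exact_mod_cast (le_trans (Nat.le_add_left 1 J₀) hJ)
    have h2 : (w : ℝ) ≤ J := by exact_mod_cast hw
    have h4 : (0 : ℝ) ≤ w := Nat.cast_nonneg w
    have h5 := ((hG J F).2.1 w J hw).2
    have h6 := (hG J F).2.2 w
    have h7 : μ * C2 ≤ η * J := by
      have h3 : (J₀ : ℝ) ≤ J := by exact_mod_cast (le_trans (Nat.le_succ J₀) hJ)
      have h8 : μ * C2 / η ≤ J := hJ₀.trans h3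
      rw [div_le_iff₀ hη] at h8
      linarith only [h8]
    have h9 : F.V w ≤ (m * Real.log 2) * J + C2 := by
      have : (m : ℝ) * (w * Real.log 2) ≤ m * (J * Real.log 2) := by gcongr
      nlinarith only [h6, this]
    have h10 : μ * F.V w / J ≤ μ * (m * Real.log 2) + μ * C2 / J := by
      have e : μ * (m * Real.log 2) + μ * C2 / J =
          (μ * (m * Real.log 2 * J + C2)) / J := by field_simp
      rw [e]
      exact div_le_div_of_nonneg_right (mul_le_mul_of_nonneg_left h9 hμ) (by positivity)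
    have h11 : ((J : ℝ) - w) * (μ * C2 / J) ≤ η * J := by
      have : ((J : ℝ) - w) * (μ * C2 / J) ≤ J * (μ * C2 / J) :=
        mul_le_mul_of_nonneg_right (by linarith only) (by positivity)
      have e : (J : ℝ) * (μ * C2 / J) = μ * C2 := by field_simp
      linarith only [h7, this, e]
    have h12 := mul_le_mul_of_nonneg_left h10 (by linarith only [h2] : (0 : ℝ) ≤ (J : ℝ) - w)
    unfold Fam.G
    nlinarith only [h5, h11, h12]
  have hlow : ∀ lam, lam < (1 + μ) * r → ¬ UB m μ lam 0 := by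
    intro lam hlam hUB
    obtain ⟨δ, hδ⟩ : ∃ δ, δ = (1 + μ) * r - lam := ⟨_, rfl⟩
    have hδ0 : 0 < δ := by rw [hδ]; linarith
    obtain ⟨l, hl0, hl1, hl2, hl3⟩ : ∃ l : ℝ, 0 < l ∧ l ≤ 1 / 2 ∧ μ * r * l ≤ δ / 2 ∧
        l * μ ≤ 1 := by
      refine ⟨min (1 / 2) (min (δ / (2 * (μ * r + 1))) (1 / (μ + 1))), ?_, min_le_left _ _,
        ?_, ?_⟩
      · have : 0 < μ * r + 1 := by positivity
        refine lt_min (by norm_num) (lt_min (by positivity) (by positivity))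
      · have h0 : 0 < μ * r + 1 := by positivity
        have h1 : min (1 / 2) (min (δ / (2 * (μ * r + 1))) (1 / (μ + 1))) ≤
          δ / (2 * (μ * r + 1)) := (min_le_right _ _).trans (min_le_left _ _)
        have h2 : μ * r * (δ / (2 * (μ * r + 1))) ≤ δ / 2 := by
          rw [mul_div_assoc', div_le_div_iff₀ (by positivity) (by norm_num)]
          nlinarith only [hlam, hδ]
        exact (mul_le_mul_of_nonneg_left h1 (by positivity)).trans h2
      · have h1 : min (1 / 2) (min (δ / (2 * (μ * r + 1))) (1 / (μ + 1))) ≤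
          1 / (μ + 1) := (min_le_right _ _).trans (min_le_right _ _)
        have h2 : 1 / (μ + 1) * μ ≤ 1 := by
          rw [one_div, inv_mul_le_iff₀ (by positivity)]
          linarith
        exact (mul_le_mul_of_nonneg_right h1 hμ).trans h2
    obtain ⟨η, hη⟩ : ∃ η, η = l * δ / 64 := ⟨_, rfl⟩
    have hη0 : 0 < η := by rw [hη]; positivity
    obtain ⟨θ1, hθ1, J1, hV1⟩ := hVr η hη0
    obtain ⟨θ2, hθ2, J2, hU2⟩ := hUB η hη0
    have hnV := hVs (r - η) (by linarith only [hη0])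
    unfold VB at hnV
    push Not at hnV
    obtain ⟨η', hη', hnV⟩ := hnV
    obtain ⟨J3, hJ3⟩ := exists_nat_ge (C1 / η)
    obtain ⟨J4, hJ4⟩ := exists_nat_ge (2 / l)
    obtain ⟨J, hJ, F, hF, hVJ⟩ := hnV (min θ2 (min (θ1 / 2) η))
      (lt_min hθ2 (lt_min (by positivity) hη0)) (J2 + 2 * J1 + J3 + J4 + 1)
    have hJ1 : (1 : ℝ) ≤ J := by exact_mod_cast (by omega : 1 ≤ J)
    have hJJ3 : (J3 : ℝ) ≤ J := by exact_mod_cast (by omega : J3 ≤ J)
    have hJJ4 : (J4 : ℝ) ≤ J := by exact_mod_cast (by omega : J4 ≤ J)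
    have hC : C1 ≤ η * J := by
      have h8 : C1 / η ≤ J := hJ3.trans hJJ3
      rwa [div_le_iff₀ hη0, mul_comm] at h8
    have hlJ : 2 ≤ l * J := by
      have h8 : 2 / l ≤ J := hJ4.trans hJJ4
      rwa [div_le_iff₀ hl0, mul_comm] at h8
    obtain ⟨k, hk⟩ : ∃ k, k = ⌊l * (J : ℝ)⌋₊ := ⟨_, rfl⟩
    have hk1 : (k : ℝ) ≤ l * J := by rw [hk]; exact Nat.floor_le (by positivity)
    have hk2 : l * J < k + 1 := by rw [hk]; exact Nat.lt_floor_add_one _
    have hkJ : (k : ℝ) ≤ J / 2 := by nlinarith only [hk1, hl1]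
    have hkJ' : 2 * k ≤ J := by
      have : (2 * k : ℝ) ≤ J := by linarith only [hkJ]
      exact_mod_cast this
    obtain ⟨w, hw⟩ : ∃ w, w = J - k := ⟨_, rfl⟩
    have hwJ : w ≤ J := by omega
    have hwc : (w : ℝ) = J - k := by
      rw [hw, Nat.cast_sub (by omega)]
    have hTm : ∀ {m J : ℕ} (F : Fam m J) (e e' : ℝ), e ≤ e' → F.Tm e → F.Tm e' := by
      intro m J F e e' he h
      unfold Fam.Tm at h ⊢
      linarith only [he, h]
    obtain ⟨hTt, hTV⟩ := hT J F w hwJ _ hF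
    have hmin1 : min θ2 (min (θ1 / 2) η) ≤ θ1 / 2 := (min_le_right _ _).trans (min_le_left _ _)
    have hmin2 : min θ2 (min (θ1 / 2) η) ≤ η := (min_le_right _ _).trans (min_le_right _ _)
    have hmin3 : min θ2 (min (θ1 / 2) η) ≤ θ2 := min_le_left _ _
    have hVw1 := (hTV w le_rfl).2
    have hVw2 := hV1 w (by omega) (F.trc w hwJ) (hTm _ _ _ (by
      have : min θ2 (min (θ1 / 2) η) * (J : ℝ) ≤ θ1 / 2 * J :=
        mul_le_mul_of_nonneg_right hmin1 (by positivity)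
      nlinarith only [this, hl0, hl1, hθ1, hkJ, hwc]) hTt)
    have hVw : F.V w ≤ (r + η) * ((J : ℝ) - k) + 2 * η * J := by
      have : min θ2 (min (θ1 / 2) η) * (J : ℝ) ≤ η * J :=
        mul_le_mul_of_nonneg_right hmin2 (by positivity)
      rw [hwc] at hVw2
      linarith only [hwJ, hC, hVw1, hVw2, this]
    have hGw := hU2 J (by omega) F (hTm _ _ _ (mul_le_mul_of_nonneg_right hmin3
      (by positivity)) hF) w hwJ
    unfold Fam.G at hGw
    have hGw' : F.V J - F.V w + (k : ℝ) * (μ * F.V w / J - lam) ≤ η * J := by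
      have e : (J : ℝ) - w = k := by rw [hwc]; ring
      rw [e] at hGw
      linarith only [hGw]
    have hfin := exi_arith (J := J) (k := k) (r := r) (μ := μ) (lam := lam) (δ := δ) (l := l)
      (η := η) (VJ := F.V J) (Vw := F.V w) (by positivity) (by positivity) hk1 hl3 hμ hr hη0 hδ
      hl2 (by nlinarith only [hVJ, hη']) hVw hGw'
    have h20 : l * J / 2 ≤ k := by linarith only [hlJ, hk2]
    have h21 : l * J / 2 * δ ≤ k * δ := mul_le_mul_of_nonneg_right h20 hδ0.le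
    have h22 : 0 < l * δ * J := by positivity
    rw [hη] at hfin
    nlinarith only [hfin, h21, h22]
  obtain ⟨Ψ, -, hUΨ, hUs⟩ := exi_inf hUup hUcl hUne (hlow ((1 + μ) * r - 1) (by linarith))
  refine ⟨r, Ψ, hr, hVr, ?_, ?_, ?_⟩
  · rw [← hμd]
    by_contra hc
    exact hlow Ψ (not_le.mp hc) hUΨ
  · rw [← hμd]; exact hUΨ
  · intro τ hτ
    rw [← hμd]
    have hsup : ∀ a b, a ≤ b → UB m μ (Ψ - τ) a → UB m μ (Ψ - τ) b := by
      intro a b hab h η hη
      obtain ⟨θ, hθ, J₀, h1⟩ := h η hη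
      refine ⟨θ, hθ, J₀, fun J hJ F hF w hw => (h1 J hJ F hF w hw).trans ?_⟩
      have : (0 : ℝ) ≤ J := Nat.cast_nonneg J
      nlinarith only [hab]
    have hscl : ∀ a, (∀ b > a, UB m μ (Ψ - τ) b) → UB m μ (Ψ - τ) a := by
      intro a h η hη
      obtain ⟨θ, hθ, J₀, h1⟩ := h (a + η / 2) (by linarith) (η / 2) (by linarith)
      exact ⟨θ, hθ, J₀, fun J hJ F hF w hw => (h1 J hJ F hF w hw).trans (le_of_eq (by ring))⟩
    have hsne : ∃ b, UB m μ (Ψ - τ) b := by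
      refine ⟨τ, ?_⟩
      intro η hη
      obtain ⟨θ, hθ, J₀, h1⟩ := hUΨ η hη
      refine ⟨θ, hθ, J₀, fun J hJ F hF w hw => ?_⟩
      have h3 := h1 J hJ F hF w hw
      have h2 : (w : ℝ) ≤ J := by exact_mod_cast hw
      have h4 : (0 : ℝ) ≤ w := Nat.cast_nonneg w
      unfold Fam.G at h3 ⊢
      nlinarith only [h3, hτ]
    obtain ⟨σ, hσ, hUσ, hσs⟩ := exi_inf hsup hscl hsne (hUs (Ψ - τ) (by linarith))
    refine ⟨σ, hσ, hUσ, ?_⟩
    intro η hη θ hθ J₀
    have hn := hσs (σ - η) (by linarith)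
    unfold UB at hn
    push Not at hn
    obtain ⟨η', hη', hn⟩ := hn
    obtain ⟨J, hJ, F, hF, w, hw, h1⟩ := hn θ hθ J₀
    refine ⟨J, hJ, F, hF, w, hw, ?_⟩
    have : (0 : ℝ) ≤ J := Nat.cast_nonneg J
    nlinarith only [h1, hη']

end Pool.KA
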